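import Pool.Agent.DFM.Stmts

/-!
# DFM, row LEA: a lattice with finite coinitiality has a least element
-/

set_option autoImplicit false

namespace Pool.Agent.DFM.H45

open Pool.Agent.DFM

theorem lea (hATT : AttStmt) : LeaStmt := by
  intro P _ hfin hne
  obtain ⟨⟨S, hS, hcard⟩, _⟩ := hATT P
  have hSf : S.Finite := by
    rw [← Set.finite_coe_iff, ← Cardinal.mk_lt_aleph0_iff, hcard]
    exact hfin
  obtain ⟨p⟩ := hne
  obtain ⟨s₀, hs₀, _⟩ := hS p
  have hT : hSf.toFinset.Nonempty := ⟨s₀, hSf.mem_toFinset.2 hs₀⟩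
  refine ⟨hSf.toFinset.inf' hT id, fun x => ?_⟩
  obtain ⟨s, hs, hsx⟩ := hS x
  exact le_trans (Finset.inf'_le id (hSf.mem_toFinset.2 hs)) hsx

end Pool.Agent.DFM.H45
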